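import Mathlib
import Pool.Agent.H31.Comm.Final

/-!
A supramenable branch group is exponentially bounded.
(The proof is in `Pool/Agent/H31/Comm/` and `Pool/Agent/H31/Supra/`.)
-/

open scoped Pointwise ENNReal Topology
open Filter

namespace Pool.Agent.Results.MP_5251ca_al.BranchGroups

/-- A group is supramenable if for every nonempty subset `A` there is a finitely additive
left-invariant measure on all subsets, with values in `[0, ∞]`, giving `A` the value `1`. -/
def Supramenable (G : Type*) [Group G] : Prop :=
  ∀ A : Set G, A.Nonempty → ∃ μ : Set G → ℝ≥0∞,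
    μ ∅ = 0 ∧ (∀ B C : Set G, Disjoint B C → μ (B ∪ C) = μ B + μ C) ∧
    (∀ (g : G) (B : Set G), μ (g • B) = μ B) ∧ μ A = 1

/-- The elements that are products of at most `n` factors from `S ∪ S⁻¹`. -/
def Ball {G : Type*} [Group G] (S : Finset G) (n : ℕ) : Set G :=
  {g : G | ∃ l : List G, l.length ≤ n ∧ (∀ x ∈ l, x ∈ S ∨ x⁻¹ ∈ S) ∧ l.prod = g}

/-- `G` is exponentially bounded: for every finite `S` the `n`-th roots of the sizes of the balls
`Ball S n` tend to `1`. -/
def ExponentiallyBounded (G : Type*) [Group G] : Prop :=
  ∀ S : Finset G,
    Tendsto (fun n : ℕ => ((Nat.card (Ball S n) : ℕ) : ℝ) ^ (1 / (n : ℝ))) atTop (𝓝 1)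

/-- The rigid stabilizer of the vertex `v`: the elements of `G` which fix every vertex that is
neither `v` nor a descendant of `v`. -/
def rist (G : Type*) {V : Type*} [Group G] [MulAction G V] (parent : V → V) (v : V) :
    Subgroup G where
  carrier := {g | ∀ w, (∀ k, parent^[k] w ≠ v) → g • w = w}
  mul_mem' := by
    intro g h hg hh w hw
    rw [mul_smul, hh w hw, hg w hw]
  one_mem' := by
    intro w _
    exact one_smul _ _
  inv_mem' := by
    intro g hg w hw
    rw [inv_smul_eq_iff]
    exact (hg w hw).symm

/-- `V` is the vertex set of a locally finite rooted tree in which every vertex has at least two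
children, and `G` acts on it as a branch group: faithfully by automorphisms, transitively on each
level, and for every `n` the subgroup generated by the rigid stabilizers of the vertices of level
`n` has finite index. -/
structure IsBranchAction (G : Type*) {V : Type*} [Group G] [MulAction G V] (root : V)
    (parent : V → V) (level : V → ℕ) : Prop where
  parent_root : parent root = root
  level_root : level root = 0
  level_parent : ∀ v, v ≠ root → level v = level (parent v) + 1
  children : ∀ v, {w | w ≠ root ∧ parent w = v}.Finite ∧ {w | w ≠ root ∧ parent w = v}.Nontrivial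
  smul_parent : ∀ (g : G) (v : V), g • parent v = parent (g • v)
  transitive : ∀ v w, level v = level w → ∃ g : G, g • v = w
  faithful : ∀ g : G, (∀ v : V, g • v = v) → g = 1
  finiteIndex : ∀ n, (⨆ (v : V) (_ : level v = n), rist G parent v).FiniteIndex

theorem result : ∀ (G : Type*) (V : Type*) [Group G] [MulAction G V] (root : V)
    (parent : V → V) (level : V → ℕ), IsBranchAction G root parent level → Supramenable G →
      ExponentiallyBounded G := by
  classical
  intro G V _ _ root parent level hbr hG
  have h1 : H31.Comm.BranchAct G root parent level :=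
    ⟨hbr.parent_root, hbr.level_root, hbr.level_parent, hbr.children, hbr.smul_parent,
      hbr.transitive, hbr.faithful, hbr.finiteIndex⟩
  exact H31.Comm.sub_iff_all.2
    (h1.sub (fun S T h => H31.Comm.sub_or_sub (fun A hA => hG A hA) S T h))

end Pool.Agent.Results.MP_5251ca_al.BranchGroups
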