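import Mathlib
import Pool.Agent.H31.Comm.Final

/-!
In a supramenable group, of two commuting finite sets at least one has subexponential growth.
(The proof is in `Pool/Agent/H31/Comm/` and `Pool/Agent/H31/Supra/`.)
-/

open scoped Pointwise ENNReal Topology
open Filter

namespace Pool.Agent.Results.MP_5251ca_al.CommutingSets

/-- A group is supramenable if for every nonempty subset `A` there is a finitely additive
left-invariant measure on all subsets, with values in `[0, ∞]`, giving `A` the value `1`. -/
def Supramenable (G : Type*) [Group G] : Prop :=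
  ∀ A : Set G, A.Nonempty → ∃ μ : Set G → ℝ≥0∞,
    μ ∅ = 0 ∧ (∀ B C : Set G, Disjoint B C → μ (B ∪ C) = μ B + μ C) ∧
    (∀ (g : G) (B : Set G), μ (g • B) = μ B) ∧ μ A = 1

/-- The elements that are products of at most `n` factors from `S ∪ S⁻¹`. -/
def Ball {G : Type*} [Group G] (S : Finset G) (n : ℕ) : Set G :=
  {g : G | ∃ l : List G, l.length ≤ n ∧ (∀ x ∈ l, x ∈ S ∨ x⁻¹ ∈ S) ∧ l.prod = g}

/-- The finite set `S` has subexponential growth: the `n`-th roots of the sizes of the balls
`Ball S n` tend to `1`. -/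
def SubexponentialGrowth {G : Type*} [Group G] (S : Finset G) : Prop :=
  Tendsto (fun n : ℕ => ((Nat.card (Ball S n) : ℕ) : ℝ) ^ (1 / (n : ℝ))) atTop (𝓝 1)

theorem result : ∀ (G : Type*) [Group G], Supramenable G →
    ∀ S T : Finset G, (∀ s ∈ S, ∀ t ∈ T, s * t = t * s) →
      SubexponentialGrowth S ∨ SubexponentialGrowth T := by
  classical
  intro G _ hG S T hST
  have hcomm : ∀ x ∈ insert 1 (S ∪ S⁻¹), ∀ y ∈ insert 1 (T ∪ T⁻¹), x * y = y * x := by
    have key : ∀ x y : G, (x ∈ S ∨ x⁻¹ ∈ S) → (y ∈ T ∨ y⁻¹ ∈ T) → Commute x y := by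
      intro x y hx hy
      rcases hx with hx | hx <;> rcases hy with hy | hy
      · exact hST x hx y hy
      · exact Commute.inv_right_iff.1 (hST x hx _ hy)
      · exact Commute.inv_left_iff.1 (hST _ hx y hy)
      · exact Commute.inv_inv_iff.1 (hST _ hx _ hy)
    intro x hx y hy
    rw [Finset.mem_insert, Finset.mem_union, Finset.mem_inv'] at hx hy
    rcases hx with rfl | hx
    · simp
    · rcases hy with rfl | hy
      · simp
      · exact key x y hx hy
  rcases H31.Comm.sub_or_sub (fun A hA => hG A hA) _ _ hcomm with h | h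
  · exact Or.inl ((H31.Comm.tendsto_iff_sub S).2 h)
  · exact Or.inr ((H31.Comm.tendsto_iff_sub T).2 h)

end Pool.Agent.Results.MP_5251ca_al.CommutingSets
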