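import Pool.Agent.H64.Func.Integral

/-!
# Exponentially bounded groups and invariant integrals

A group is exponentially bounded if and only if every nonzero bounded nonnegative function on it
can be normalised by an additive left-invariant functional; it is enough to be able to do so for
the functions whose nonzero values decay subexponentially in the word length of some finite set.
-/

set_option autoImplicit false

open Filter
open scoped Topology ENNReal NNReal

namespace Pool.Agent.Results.MP_5251ca_al.FunctionVersion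

variable {G : Type*} [Group G]

/-- The elements that are products of at most `n` factors from `S ∪ S⁻¹`. -/
def Ball (S : Finset G) (n : ℕ) : Set G :=
  {g : G | ∃ l : List G, l.length ≤ n ∧ (∀ x ∈ l, x ∈ S ∨ x⁻¹ ∈ S) ∧ l.prod = g}

/-- `G` is exponentially bounded: for every finite `S` the `n`-th roots of the sizes of the balls
`Ball S n` tend to `1`. -/
def ExponentiallyBounded (G : Type*) [Group G] : Prop :=
  ∀ S : Finset G,
    Tendsto (fun n : ℕ => ((Nat.card (Ball S n) : ℕ) : ℝ) ^ (1 / (n : ℝ))) atTop (𝓝 1)

/-- There is an additive left-invariant functional `I` on all functions `G → [0, ∞]` with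
`I f = 1`. -/
def HasIntegral (f : G → ℝ≥0) : Prop :=
  ∃ I : (G → ℝ≥0∞) → ℝ≥0∞,
    (∀ φ ψ : G → ℝ≥0∞, I (fun x => φ x + ψ x) = I φ + I ψ) ∧
    (∀ (g : G) (φ : G → ℝ≥0∞), I (fun x => φ (g * x)) = I φ) ∧
    I (fun x => (f x : ℝ≥0∞)) = 1

/-- `f` vanishes outside the subgroup generated by `S`, and its nonzero values decay at most
subexponentially in the word length: for every `ε > 0` there is `c > 0` such that every nonzero
value of `f` on `Ball S n` is at least `c exp (-ε n)`. -/
def SubexponentialDecay (S : Finset G) (f : G → ℝ≥0) : Prop :=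
  (∀ x, f x ≠ 0 → ∃ n, x ∈ Ball S n) ∧
  ∀ ε : ℝ, 0 < ε → ∃ c : ℝ, 0 < c ∧
    ∀ n : ℕ, ∀ x ∈ Ball S n, f x ≠ 0 → c * Real.exp (-(ε * n)) ≤ f x

theorem ball_eq (S : Finset G) (n : ℕ) : Ball S n = H64.Func.ball S n := rfl

theorem hasIntegral_iff (f : G → ℝ≥0) :
    HasIntegral f ↔ H64.Func.HasIntegral (fun x => (f x : ℝ≥0∞)) := Iff.rfl

theorem exponentiallyBounded_iff :
    ExponentiallyBounded G ↔ ∀ S : Finset G, H64.Func.rate S = 0 := by
  constructor
  · intro h S
    exact H64.Func.rate_eq_zero_of_tendsto S (h S)
  · intro h S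
    have h1 := H64.Func.tendsto_root S
    rw [h S, Real.exp_zero] at h1
    exact h1

/-- For a group `G` the following are equivalent: `G` is exponentially bounded; every nonzero
bounded `f : G → [0, ∞)` has an invariant integral; for every finite `S`, every nonzero
`f : G → [0, 1]` of subexponential decay with respect to `S` has an invariant integral. -/
theorem result (G : Type*) [Group G] :
    [ExponentiallyBounded G,
      ∀ f : G → ℝ≥0, f ≠ 0 → (∃ C : ℝ≥0, ∀ x, f x ≤ C) → HasIntegral f,
      ∀ (S : Finset G) (f : G → ℝ≥0), f ≠ 0 → (∀ x, f x ≤ 1) → SubexponentialDecay S f →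
        HasIntegral f].TFAE := by
  tfae_have 1 → 2 := by
    intro h f hf hC
    obtain ⟨C, hC⟩ := hC
    exact H64.Func.hasIntegral_of_rate (exponentiallyBounded_iff.1 h) f hf C hC
  tfae_have 2 → 3 := by
    intro h S f hf h1 _
    exact h f hf ⟨1, h1⟩
  tfae_have 3 → 1 := by
    intro h
    rw [exponentiallyBounded_iff]
    intro S
    by_contra hS
    have hS' : 0 < H64.Func.rate S := lt_of_le_of_ne (H64.Func.rate_nonneg S) (Ne.symm hS)
    obtain ⟨f, hf, hf1, hsupp, hdecay, hno⟩ := H64.Func.exists_bad S hS'
    apply hno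
    have hne : ∀ x, (f x).toNNReal ≠ 0 → f x ≠ 0 := by
      intro x hx h0
      rw [h0, Real.toNNReal_zero] at hx
      exact hx rfl
    refine h S (fun x => (f x).toNNReal) ?_ ?_ ⟨?_, ?_⟩
    · intro h0
      have h2 := congrFun h0 1
      simp only [Pi.zero_apply, Real.toNNReal_eq_zero] at h2
      linarith
    · intro x
      exact Real.toNNReal_le_one.2 (hf x).2
    · intro x hx
      exact hsupp x (hne x hx)
    · intro ε hε
      obtain ⟨c, hc, hcx⟩ := hdecay ε hε
      refine ⟨c, hc, fun n x hxn hx => ?_⟩
      rw [Real.coe_toNNReal _ (hf x).1]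
      exact hcx n x hxn (hne x hx)
  tfae_finish

end Pool.Agent.Results.MP_5251ca_al.FunctionVersion
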