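import Mathlib
import Pool.Agent.H28.TS.Final

/-!
A group is exponentially bounded if and only if every nonempty subset has measure one for some
finitely additive measure invariant under left and right translations; more generally, a criterion
for measures invariant under two commuting free actions.
(The proof is in `Pool/Agent/H28/TS/`, `Pool/Agent/H31/Comm/` and `Pool/Agent/H31/Supra/`.)
-/

open scoped Pointwise ENNReal Topology
open Filter

universe u v w

namespace Pool.Agent.Results.MP_5251ca_al.TwoSided

/-- A group is supramenable if for every nonempty subset `A` there is a finitely additive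
left-invariant measure on all subsets, with values in `[0, ∞]`, giving `A` the value `1`. -/
def Supramenable (G : Type*) [Group G] : Prop :=
  ∀ A : Set G, A.Nonempty → ∃ μ : Set G → ℝ≥0∞,
    μ ∅ = 0 ∧ (∀ B C : Set G, Disjoint B C → μ (B ∪ C) = μ B + μ C) ∧
    (∀ (g : G) (B : Set G), μ (g • B) = μ B) ∧ μ A = 1

/-- Every nonempty subset `A` has measure `1` for some finitely additive measure on all subsets
which is invariant under left and right translations. -/
def TwoSidedSupramenable (G : Type*) [Group G] : Prop :=
  ∀ A : Set G, A.Nonempty → ∃ μ : Set G → ℝ≥0∞,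
    μ ∅ = 0 ∧ (∀ B C : Set G, Disjoint B C → μ (B ∪ C) = μ B + μ C) ∧
    (∀ (g : G) (B : Set G), μ ((fun x => g * x) '' B) = μ B) ∧
    (∀ (g : G) (B : Set G), μ ((fun x => x * g) '' B) = μ B) ∧ μ A = 1

/-- Every nonempty subset `A` of `X` has measure `1` for some finitely additive measure on all
subsets of `X` which is invariant under the groups `L` and `R` acting on `X`. -/
def JointlySupramenable (L R X : Type*) [Group L] [Group R] [MulAction L X] [MulAction R X] :
    Prop :=
  ∀ A : Set X, A.Nonempty → ∃ μ : Set X → ℝ≥0∞,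
    μ ∅ = 0 ∧ (∀ B C : Set X, Disjoint B C → μ (B ∪ C) = μ B + μ C) ∧
    (∀ (l : L) (B : Set X), μ (l • B) = μ B) ∧ (∀ (r : R) (B : Set X), μ (r • B) = μ B) ∧ μ A = 1

/-- The elements that are products of at most `n` factors from `S ∪ S⁻¹`. -/
def Ball {G : Type*} [Group G] (S : Finset G) (n : ℕ) : Set G :=
  {g : G | ∃ l : List G, l.length ≤ n ∧ (∀ x ∈ l, x ∈ S ∨ x⁻¹ ∈ S) ∧ l.prod = g}

/-- `G` is exponentially bounded: for every finite `S` the `n`-th roots of the sizes of the balls
`Ball S n` tend to `1`. -/
def ExponentiallyBounded (G : Type*) [Group G] : Prop :=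
  ∀ S : Finset G,
    Tendsto (fun n : ℕ => ((Nat.card (Ball S n) : ℕ) : ℝ) ^ (1 / (n : ℝ))) atTop (𝓝 1)

theorem expBdd_iff (G : Type*) [Group G] : ExponentiallyBounded G ↔ H31.Comm.LS G := by
  classical
  rw [H31.Comm.LS_iff]
  exact H31.Comm.sub_iff_all

theorem result :
    (∀ (G : Type u) [Group G], TwoSidedSupramenable G ↔ ExponentiallyBounded G) ∧
    (∀ (L : Type u) (R : Type v) (X : Type w) [Group L] [Group R] [MulAction L X] [MulAction R X]
      [Nonempty X], (∀ (l : L) (r : R) (x : X), l • r • x = r • l • x) →
      (∀ (l : L) (x : X), l • x = x → l = 1) → (∀ (r : R) (x : X), r • x = x → r = 1) →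
      (JointlySupramenable L R X ↔ Supramenable L ∧ Supramenable R ∧
        (ExponentiallyBounded L ∨ ExponentiallyBounded R))) := by
  constructor
  · intro G _
    rw [expBdd_iff]
    exact H28.TS.two_iff
  · intro L R X _ _ _ _ hX hc hL hR
    rw [expBdd_iff, expBdd_iff]
    obtain ⟨x₀⟩ := hX
    exact H28.TS.bi_iff x₀ hc hL hR

end Pool.Agent.Results.MP_5251ca_al.TwoSided
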